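import Pool.Agent.Helper40.KT.UnitOf
import Pool.Agent.Helper9.KT.Triang

/-!
A block which is not in `pairs 1` has a unit eigenvalue (project K'', block B7b, assembly).
-/

set_option autoImplicit false

open Matrix H77MT Pool.Agent.Helper79.KN Pool.Agent.Helper33.KN Pool.Agent.Helper73.KT

namespace Pool.Agent.Helper21.KT

variable {Γ X n K ι : Type} [Group Γ] [Fintype X] [DecidableEq X] [Fintype n] [DecidableEq n] [Field K] [CharZero K]
  [IsAlgClosed K] [Fintype ι] [DecidableEq ι]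

open Classical in
/-- B7b: a block which is not in `pairs 1` has a unit eigenvalue -/
theorem exists_unit_ten (hN : Fintype.card ι ^ 2 < Fintype.card n) {ρ : Rep Γ X n K} {m : ℕ} (hm : 0 < m)
    {c : Γ →* Kˣ} {γ₀ : Γ} {O : ValuationSubring K} (hO : O.valuation (c γ₀ : K) < 1) (i : ι → X × Bool)
    (hcount : ∀ a, mult i a ≤ ((act ρ m c γ₀ (i a)).charpoly.roots.filter fun z => O.valuation z = 1).card)
    {R : Submodule K ((ι → n) → K)} (hR : Stab i R) (hS : ¬ R ≤ pairs K n i 1) {k : ℕ} (hk : 0 < k)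
    (hst : ∀ M ∈ R, ten (fun a => act ρ m c (γ₀ ^ k) (i a)) M ∈ R) :
    ∃ M ∈ R, M ≠ 0 ∧ ∃ z : K, O.valuation z = 1 ∧ ten (fun a => act ρ m c (γ₀ ^ k) (i a)) M = z • M :=
  Pool.Agent.Helper61.KT.unit_of_fin
    (Pool.Agent.Helper40.KT.unitFin_of fun G d h => Pool.Agent.Helper9.KT.triang G d h) hN hm hO i hcount hR hS hk hst

end Pool.Agent.Helper21.KT
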