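import Pool.Agent.Helper21.KT.Contr
import Pool.Agent.Helper48.KT.B8b
import Pool.Agent.Helper9.KT.Pairs
import Pool.Agent.Helper21.KT.UnitTen

/-!
One block, all twists (project K'', block B8c).
-/

set_option autoImplicit false

open Matrix H77MT Pool.Agent.Helper79.KN Pool.Agent.Helper33.KN

namespace Pool.Agent.Helper73.KT

variable {Γ X n K ι : Type} [Group Γ] [Fintype X] [DecidableEq X] [Fintype n] [DecidableEq n] [Field K] [CharZero K]
  [IsAlgClosed K] [Fintype ι] [DecidableEq ι]

omit [CharZero K] [IsAlgClosed K] [Fintype X] [DecidableEq X] in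
theorem act_transpose_mul (ρ : Rep Γ X n K) (m : ℕ) (c : Γ →* Kˣ) (γ : Γ) {i j : X × Bool} (h : j = (i.1, !i.2)) :
    (act ρ m c γ i)ᵀ * act ρ m c γ j = ((c γ : K) ^ m) • 1 := by
  obtain ⟨x, e⟩ := i
  subst h
  have h1 : (ρ x γ : Matrix n n K) * (ρ x γ⁻¹ : Matrix n n K) = 1 := by
    rw [← Units.val_mul, ← map_mul, mul_inv_cancel, map_one, Units.val_one]
  have h2 : (ρ x γ⁻¹ : Matrix n n K) * (ρ x γ : Matrix n n K) = 1 := by
    rw [← Units.val_mul, ← map_mul, inv_mul_cancel, map_one, Units.val_one]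
  cases e
  · simp only [act, Bool.not_false, if_true, Bool.false_eq_true, if_false]
    rw [Matrix.transpose_smul, Matrix.transpose_transpose, Matrix.smul_mul, h2]
  · simp only [act, Bool.not_true, if_true, Bool.false_eq_true, if_false]
    rw [Matrix.mul_smul, ← Matrix.transpose_mul, h2, Matrix.transpose_one]

omit [CharZero K] [IsAlgClosed K] in
theorem pact_transpose_mul {A : Matrix n n K} (hA : A.det = 1) (e : Bool) : (pact A e)ᵀ * pact A (!e) = (1 : K) • 1 := by
  cases e
  · simp only [pact, Bool.not_false, if_true, Bool.false_eq_true, if_false]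
    rw [Matrix.transpose_transpose, Matrix.adjugate_mul, hA]
  · simp only [pact, Bool.not_true, if_true, Bool.false_eq_true, if_false]
    rw [← Matrix.transpose_mul, Matrix.adjugate_mul, hA, Matrix.transpose_smul, Matrix.transpose_one]

omit [CharZero K] [IsAlgClosed K] [Fintype X] [DecidableEq X] in
theorem stab_contr {i : ι → X × Bool} {R : Submodule K ((ι → n) → K)} (hR : Stab i R) {a b : ι} (hab : a ≠ b)
    (h : i b = ((i a).1, !(i a).2)) : Stab (fun c : Rest a b => i c.1) (R.map (contr a b)) := by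
  intro A hA M hM
  obtain ⟨N, hN, rfl⟩ := hM
  refine ⟨ten (fun a => pact (A (i a).1) (i a).2) N, hR A hA N hN, ?_⟩
  rw [contr_ten hab (fun a => pact (A (i a).1) (i a).2) (w := 1) ?_ N, one_smul]
  simp only [h]
  exact pact_transpose_mul (hA _) _

open Classical in
/-- **B8c** (one block, all `ν`) -/
theorem block_le (hN : Fintype.card ι ^ 2 < Fintype.card n) {ρ : Rep Γ X n K} {m : ℕ} (hm : 0 < m)
    {c : Γ →* Kˣ} {γ₀ : Γ} {O : ValuationSubring K} (hO : O.valuation (c γ₀ : K) < 1) (i : ι → X × Bool)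
    (hcount : ∀ a, mult i a ≤ ((act ρ m c γ₀ (i a)).charpoly.roots.filter fun z => O.valuation z = 1).card)
    {R : Submodule K ((ι → n) → K)} (hR : Stab i R) {k : ℕ} (hk : 0 < k)
    (hst : ∀ M ∈ R, ten (fun a => act ρ m c (γ₀ ^ k) (i a)) M ∈ R) {ν q : ℕ} (hq : q * m < ν + m)
    (hint : ∀ M ∈ R, M ≠ 0 → ∀ z : K, ten (fun a => act ρ m c (γ₀ ^ k) (i a)) M = z • M →
      O.valuation z ≤ O.valuation (c γ₀ : K) ^ (k * ν)) : R ≤ pairs K n i q := by
  induction q generalizing ι ν with
  | zero => exact fun M _ => Pool.Agent.Helper9.KT.pairs_zero i M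
  | succ q ih =>
    have hqm : q * m < ν := by
      rw [Nat.succ_mul] at hq
      omega
    have hν : 0 < ν := by omega
    have hc0 : O.valuation (c γ₀ : K) ≠ 0 := (Valuation.ne_zero_iff _).2 (Units.ne_zero _)
    -- the first pairing
    have h1 : R ≤ pairs K n i 1 := by
      by_contra hS
      obtain ⟨M, hM, hM0, z, hz, hMz⟩ := Pool.Agent.Helper21.KT.exists_unit_ten hN hm hO i hcount hR hS hk hst
      have h2 := hint M hM hM0 z hMz
      rw [hz] at h2
      have h3 : O.valuation (c γ₀ : K) ^ (k * ν) < 1 :=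
        pow_lt_one₀ zero_le hO (Nat.mul_pos hk hν).ne'
      exact absurd h2 (not_le.2 h3)
    rcases Nat.eq_zero_or_pos q with h0 | hq0
    · subst h0
      exact h1
    have hmν : m ≤ ν := by
      have : m ≤ q * m := Nat.le_mul_of_pos_left m hq0
      omega
    have hn : Nonempty n := Fintype.card_pos_iff.1 (by omega)
    intro M hM
    refine pairs_succ (h1 hM) fun a b hab h => ?_
    -- the contraction
    have hcomm : ∀ N, contr a b (ten (fun a => act ρ m c (γ₀ ^ k) (i a)) N) =
        ((c (γ₀ ^ k) : K) ^ m) • ten (fun d : Rest a b => act ρ m c (γ₀ ^ k) (i d.1)) (contr a b N) := fun N =>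
      contr_ten hab (fun a => act ρ m c (γ₀ ^ k) (i a)) (act_transpose_mul ρ m c (γ₀ ^ k) h) N
    have hw0 : ((c (γ₀ ^ k) : K) ^ m) ≠ 0 := pow_ne_zero _ (Units.ne_zero _)
    have hw : ((c (γ₀ ^ k) : K) ^ m) = (c γ₀ : K) ^ (k * m) := by
      rw [map_pow, Units.val_pow_eq_pow_val, ← pow_mul]
    have hst' : ∀ N ∈ R.map (contr a b), ten (fun d : Rest a b => act ρ m c (γ₀ ^ k) (i d.1)) N ∈ R.map (contr a b) := by
      rintro _ ⟨N, hN', rfl⟩
      have h2 : contr a b (ten (fun a => act ρ m c (γ₀ ^ k) (i a)) N) ∈ R.map (contr a b) := ⟨_, hst N hN', rfl⟩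
      rw [hcomm] at h2
      have h3 := (R.map (contr a b)).smul_mem (((c (γ₀ ^ k) : K) ^ m))⁻¹ h2
      rwa [smul_smul, inv_mul_cancel₀ hw0, one_smul] at h3
    have hcard : Fintype.card (Rest a b) ≤ Fintype.card ι := Fintype.card_subtype_le _
    have hN' : Fintype.card (Rest a b) ^ 2 < Fintype.card n :=
      lt_of_le_of_lt (Nat.pow_le_pow_left hcard 2) hN
    have hcount' : ∀ d : Rest a b, mult (fun d : Rest a b => i d.1) d ≤
        ((act ρ m c γ₀ (i d.1)).charpoly.roots.filter fun z => O.valuation z = 1).card := by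
      intro d
      refine le_trans ?_ (hcount d.1)
      unfold mult
      refine Finset.card_le_card_of_injOn (fun e : Rest a b => e.1) ?_ Subtype.val_injective.injOn
      intro e he
      rw [Finset.mem_coe, Finset.mem_filter] at he ⊢
      exact ⟨Finset.mem_univ _, he.2⟩
    have hint' : ∀ N ∈ R.map (contr a b), N ≠ 0 → ∀ z : K,
        ten (fun d : Rest a b => act ρ m c (γ₀ ^ k) (i d.1)) N = z • N →
        O.valuation z ≤ O.valuation (c γ₀ : K) ^ (k * (ν - m)) := by
      intro N hN1 hN0 z hz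
      obtain ⟨u, hu, hu0, huz⟩ := eig_lift (contr a b) (tenL fun a => act ρ m c (γ₀ ^ k) (i a))
        (((c (γ₀ ^ k) : K) ^ m) • tenL fun d : Rest a b => act ρ m c (γ₀ ^ k) (i d.1)) (fun u => hcomm u) R
        (fun u hu => hst u hu) hN1 hN0 (z := (c (γ₀ ^ k) : K) ^ m * z) (by
          rw [LinearMap.smul_apply, mul_smul]
          exact congrArg _ hz)
      have h2 := hint u hu hu0 _ huz
      rw [hw, map_mul, map_pow, show k * ν = k * m + k * (ν - m) by rw [← mul_add]; congr 1; omega, pow_add] at h2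
      exact le_of_mul_le_mul_left h2 (zero_lt_iff.2 (pow_ne_zero _ hc0))
    have h3 := ih (ι := Rest a b) hN' (fun d : Rest a b => i d.1) hcount' (stab_contr hR hab h) hst'
      (ν := ν - m) (by omega) hint'
    exact h3 ⟨M, hM, rfl⟩

end Pool.Agent.Helper73.KT
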