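import Pool.Agent.Helper73.KT.Ops

/-!
Contractions and tensor products of matrices (project K'', block B8a).
-/

set_option autoImplicit false

open Matrix H77MT Pool.Agent.Helper79.KN Pool.Agent.Helper33.KN Pool.Agent.Helper73.KT

namespace Pool.Agent.Helper21.KT

section ext

variable {n ι : Type} [Fintype n] [DecidableEq n] [Fintype ι] [DecidableEq ι]

/-- The index with the values `s` on the other factors and `d` at `a` and `b`. -/
def ex (a b : ι) (s : Rest a b → n) (d : n) : ι → n := fun c => if h : c ≠ a ∧ c ≠ b then s ⟨c, h⟩ else d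

omit [Fintype n] [DecidableEq n] [Fintype ι] in
theorem ex_left (a b : ι) (s : Rest a b → n) (d : n) : ex a b s d a = d := by simp [ex]

omit [Fintype n] [DecidableEq n] [Fintype ι] in
theorem ex_right (a b : ι) (s : Rest a b → n) (d : n) : ex a b s d b = d := by simp [ex]

omit [Fintype n] [DecidableEq n] [Fintype ι] in
theorem ex_rest (a b : ι) (s : Rest a b → n) (d : n) (c : Rest a b) : ex a b s d c.1 = s c := by
  unfold ex
  rw [dif_pos c.2]

omit [Fintype n] [DecidableEq n] [Fintype ι] in
theorem ex_self (a b : ι) (t : ι → n) (h : t a = t b) : ex a b (fun c => t c.1) (t a) = t := by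
  funext c
  by_cases hc : c ≠ a ∧ c ≠ b
  · unfold ex
    rw [dif_pos hc]
  · unfold ex
    rw [dif_neg hc]
    rw [not_and_or, not_not, not_not] at hc
    rcases hc with rfl | rfl
    · rfl
    · exact h

/-- Sums over the indices which agree at `a` and `b`. -/
theorem sum_diag {R : Type} [AddCommMonoid R] (a b : ι) (F : (ι → n) → R) :
    ∑ t, (if t a = t b then F t else 0) = ∑ s : Rest a b → n, ∑ d, F (ex a b s d) := by
  rw [← Finset.sum_filter, ← Fintype.sum_prod_type' (f := fun s d => F (ex a b s d))]
  symm
  refine Finset.sum_bij' (fun p _ => ex a b p.1 p.2) (fun t _ => (fun c : Rest a b => t c.1, t a))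
    ?_ ?_ ?_ ?_ ?_
  · intro p _
    rw [Finset.mem_filter]
    exact ⟨Finset.mem_univ _, by rw [ex_left, ex_right]⟩
  · intro t _
    exact Finset.mem_univ _
  · rintro ⟨s, d⟩ _
    rw [Prod.mk.injEq]
    refine ⟨?_, ex_left a b s d⟩
    funext c
    exact ex_rest a b s d c
  · intro t ht
    rw [Finset.mem_filter] at ht
    exact ex_self a b t ht.2
  · intro p _
    rfl

/-- Products over all factors. -/
theorem prod_rest {R : Type} [CommMonoid R] {a b : ι} (hab : a ≠ b) (f : ι → R) :
    ∏ c, f c = f a * (f b * ∏ c : Rest a b, f c.1) := by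
  rw [← Finset.mul_prod_erase Finset.univ f (Finset.mem_univ a),
    ← Finset.mul_prod_erase (Finset.univ.erase a) f (Finset.mem_erase.2 ⟨hab.symm, Finset.mem_univ b⟩)]
  congr 2
  refine Finset.prod_subtype _ (fun c => ?_) f
  rw [Finset.mem_erase, Finset.mem_erase]
  exact ⟨fun h => ⟨h.2.1, h.1⟩, fun h => ⟨h.2, h.1, Finset.mem_univ c⟩⟩

end ext

variable {X n K ι : Type} [Fintype n] [DecidableEq n] [Field K] [Fintype ι] [DecidableEq ι]

theorem contr_apply (a b : ι) (M : (ι → n) → K) (s : Rest a b → n) :
    contr a b M s = ∑ d, M (ex a b s d) := rfl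

theorem con_apply (a b : ι) (M : (ι → n) → K) (s : ι → n) :
    con a b M s = if s a = s b then contr a b M (fun c => s c.1) else 0 := by
  change (if s a = s b then ∑ d, M (Function.update (Function.update s a d) b d) else 0) = _
  split_ifs with h
  · rw [contr_apply]
    refine Finset.sum_congr rfl fun d _ => ?_
    congr 1
    funext c
    by_cases hb : c = b
    · subst hb
      rw [Function.update_self, ex_right]
    · rw [Function.update_of_ne hb]
      by_cases ha : c = a
      · subst ha
        rw [Function.update_self, ex_left]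
      · rw [Function.update_of_ne ha]
        exact (ex_rest a b (fun c => s c.1) d ⟨c, ha, hb⟩).symm
  · rfl

/-- **B8a** -/
theorem contr_ten {a b : ι} (hab : a ≠ b) (A : ι → Matrix n n K) {w : K} (h : (A a)ᵀ * A b = w • 1)
    (M : (ι → n) → K) :
    contr a b (ten A M) = w • ten (fun c : Rest a b => A c.1) (contr a b M) := by
  funext s
  have h1 : ∀ p q : n, ∑ d, A a d p * A b d q = if p = q then w else 0 := by
    intro p q
    have h2 := congrFun (congrFun h p) q
    rw [Matrix.mul_apply, Matrix.smul_apply, Matrix.one_apply, smul_eq_mul] at h2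
    simp only [Matrix.transpose_apply] at h2
    rw [h2]
    split_ifs
    · rw [mul_one]
    · rw [mul_zero]
  rw [contr_apply, Pi.smul_apply, smul_eq_mul]
  simp only [ten]
  rw [Finset.sum_comm]
  have h3 : ∀ t : ι → n, ∑ d, (∏ c, A c (ex a b s d c) (t c)) * M t =
      if t a = t b then w * ((∏ c : Rest a b, A c.1 (s c) (t c.1)) * M t) else 0 := by
    intro t
    have h4 : ∀ d, (∏ c, A c (ex a b s d c) (t c)) * M t =
        (A a d (t a) * A b d (t b)) * ((∏ c : Rest a b, A c.1 (s c) (t c.1)) * M t) := by
      intro d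
      rw [prod_rest hab, ex_left, ex_right]
      simp only [ex_rest]
      ring
    rw [Finset.sum_congr rfl fun d _ => h4 d, ← Finset.sum_mul, h1]
    split_ifs
    · rfl
    · rw [zero_mul]
  rw [Finset.sum_congr rfl fun t _ => h3 t, sum_diag, Finset.mul_sum]
  refine Finset.sum_congr rfl fun t _ => ?_
  rw [contr_apply, Finset.mul_sum, Finset.mul_sum]
  refine Finset.sum_congr rfl fun d _ => ?_
  simp only [ex_rest]

/-- The symmetric form of `con`. -/
theorem dot_con (a b : ι) (M N : (ι → n) → K) :
    ∑ s, con a b M s * N s = ∑ s, contr a b M s * contr a b N s := by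
  have h1 : ∀ s : ι → n, con a b M s * N s =
      if s a = s b then contr a b M (fun c => s c.1) * N s else 0 := by
    intro s
    rw [con_apply]
    split_ifs
    · rfl
    · rw [zero_mul]
  rw [Finset.sum_congr rfl fun s _ => h1 s, sum_diag]
  refine Finset.sum_congr rfl fun s _ => ?_
  rw [contr_apply a b N, Finset.mul_sum]
  refine Finset.sum_congr rfl fun d _ => ?_
  simp only [ex_rest]

end Pool.Agent.Helper21.KT

namespace Pool.Agent.Helper73.KT

variable {n K ι : Type} [Fintype n] [DecidableEq n] [Field K] [Fintype ι] [DecidableEq ι]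

/-- **B8a**, statement of the blueprint -/
theorem contr_ten {a b : ι} (hab : a ≠ b) (A : ι → Matrix n n K) {w : K} (h : (A a)ᵀ * A b = w • 1)
    (M : (ι → n) → K) :
    contr a b (ten A M) = w • ten (fun c : Rest a b => A c.1) (contr a b M) :=
  Pool.Agent.Helper21.KT.contr_ten hab A h M

end Pool.Agent.Helper73.KT
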