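import Pool.Agent.Helper53.SCD.Final

/-!
# Primes at which the Frobenius is a given involution (project KT)
-/

set_option autoImplicit false

open NumberField Polynomial Filter Topology

namespace Pool.Agent.Helper21.KT

open Pool.Agent.Helper70.Art Pool.Agent.H53SCD

noncomputable section

section frob

variable {k L : Type} [Field k] [NumberField k] [Field L] [NumberField L] [Algebra k L]

theorem mod_four {p : ℕ} [hp : Fact p.Prime] (hψ : ∀ a : ZMod p, a ^ 2 + 1 ≠ 0) : p % 4 = 3 := by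
  by_contra h
  obtain ⟨a, ha⟩ := ZMod.exists_sq_eq_neg_one_iff.2 h
  exact hψ a (by rw [sq, ← ha, neg_add_cancel])

theorem pow_fixed (g : L ≃ₐ[k] L) (hk : ∀ z : L, g z = z → ∃ w : k, algebraMap k L w = z)
    (p : ℕ) [hp : Fact p.Prime] (ψ : 𝓞 k →+* ZMod p) (z : 𝓞 L) (hz : g • z = z) :
    extH L p ψ z ^ p = extH L p ψ z := by
  have h0 : g (z : L) = z := congrArg (fun w : 𝓞 L => (w : L)) hz
  obtain ⟨w, hw⟩ := hk _ h0
  have hwi : IsIntegral ℤ w := by
    rw [← isIntegral_algebraMap_iff (B := L) (algebraMap k L).injective, hw]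
    exact z.2
  have h1 : algebraMap (𝓞 k) (𝓞 L) ⟨w, hwi⟩ = z := by
    apply RingOfIntegers.ext
    exact hw
  rw [← h1, extH_spec, ← map_pow, ZMod.pow_card]

theorem frob (g : L ≃ₐ[k] L) (hk : ∀ z : L, g z = z → ∃ w : k, algebraMap k L w = z)
    (hgg : ∀ z : 𝓞 L, g • g • z = z) (j : 𝓞 L) (hj : j ^ 2 = -1) (hgj : g • j = -j)
    (p : ℕ) [hp : Fact p.Prime] (ψ : 𝓞 k →+* ZMod p) (hψ : ∀ a : ZMod p, a ^ 2 + 1 ≠ 0)
    (z : 𝓞 L) : extH L p ψ (g • z) = extH L p ψ z ^ p := by
  have h4 := mod_four hψ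
  set Φ := extH L p ψ with hΦ
  have hch : CharP (Fb p) p := charP_of_injective_algebraMap (io_inj p) p
  have h2 : (2 : Fb p) ≠ 0 := by
    intro h
    have h' : ((2 : ℕ) : Fb p) = 0 := by exact_mod_cast h
    rw [CharP.cast_eq_zero_iff (Fb p) p] at h'
    have := Nat.le_of_dvd (by norm_num) h'
    omega
  have hj2 : Φ j ^ 2 = -1 := by rw [← map_pow, hj, map_neg, map_one]
  have hj0 : Φ j ≠ 0 := by
    intro h
    rw [h] at hj2
    norm_num at hj2
  have hjp : Φ j ^ p = -Φ j := by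
    have h5 : ∀ n m : ℕ, n = 2 * (2 * m + 1) + 1 → Φ j ^ n = -Φ j := by
      rintro n m rfl
      rw [pow_succ, pow_mul, hj2, pow_succ, pow_mul]
      norm_num
    exact h5 p (p / 4) (by omega)
  have hu := pow_fixed g hk p ψ (z + g • z) (by rw [smul_add, hgg, add_comm])
  have hv := pow_fixed g hk p ψ (j * (z - g • z)) (by
    rw [smul_mul', smul_sub, hgg, hgj]
    ring)
  rw [← hΦ, map_add, add_pow_char] at hu
  rw [← hΦ, map_mul, map_sub, mul_pow, sub_pow_char, hjp] at hv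
  have hv' : -(Φ z ^ p - Φ (g • z) ^ p) = Φ z - Φ (g • z) := by
    apply mul_left_cancel₀ hj0
    rw [← hv]
    ring
  have h3 : 2 * Φ (g • z) = 2 * Φ z ^ p := by linear_combination (-1) * hu + hv'
  exact mul_left_cancel₀ h2 h3

/-- The primes: `p = 3 mod 4`, a prime of `k` of degree one, not in a finite set. -/
def RR (k : Type) [Field k] [NumberField k] (bad : ℕ) : Set ℕ :=
  {p | p.Prime ∧ ¬ p ∣ bad ∧ ∃ _ψ : 𝓞 k →+* ZMod p, ∀ a : ZMod p, a ^ 2 + 1 ≠ 0}

theorem RR_eq (bad : ℕ) : RR k bad = SS k (X ^ 2 + 1) bad := by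
  ext p
  refine and_congr Iff.rfl (and_congr Iff.rfl (exists_congr fun ψ => forall_congr' fun a => ?_))
  rw [Polynomial.map_add, Polynomial.map_pow, map_X, Polynomial.map_one, eval_add, eval_pow,
    eval_X, eval_one]

theorem not_summable [IsGalois k L] (g : L ≃ₐ[k] L) (j : 𝓞 L) (hj : j ^ 2 = -1)
    (hgj : g • j = -j) (bad : ℕ) (hbad : bad ≠ 0) :
    ¬ Summable (fun p : Nat.Primes => Set.indicator (RR k bad) (fun m : ℕ => 1 / (m : ℝ)) (p : ℕ)) := by
  intro hsum
  have hm : (X ^ 2 + 1 : (𝓞 k)[X]).Monic := by monicity!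
  have hjL : ((j : 𝓞 L) : L) ^ 2 = -1 := by
    have := congrArg (fun w : 𝓞 L => (w : L)) hj
    simpa using this
  have hfac : (((X ^ 2 + 1 : (𝓞 k)[X]).map (algebraMap (𝓞 k) k)).map (algebraMap k L)) =
      (X - C (j : L)) * (X - C (-(j : L))) := by
    rw [Polynomial.map_add, Polynomial.map_pow, map_X, Polynomial.map_one,
      Polynomial.map_add, Polynomial.map_pow, map_X, Polynomial.map_one]
    have h1 : (C (j : L)) ^ 2 = -1 := by rw [← C_pow, hjL, C_neg, C_1]
    rw [C_neg]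
    linear_combination h1
  have hs : (((X ^ 2 + 1 : (𝓞 k)[X]).map (algebraMap (𝓞 k) k)).map (algebraMap k L)).Splits := by
    rw [hfac]
    exact (Splits.X_sub_C _).mul (Splits.X_sub_C _)
  have hj0 : j ≠ 0 := by
    rintro rfl
    norm_num at hj
  obtain ⟨δ, C₀, hδ, hev⟩ := SS_bound L (X ^ 2 + 1 : (𝓞 k)[X]) hm hs ⟨g, by
    rintro ⟨ω, hω⟩ h
    have h1 : g • ω = ω := congrArg Subtype.val h
    have h2 : eval₂ (algebraMap (𝓞 k) (𝓞 L)) ω (X ^ 2 + 1) = 0 := hω
    rw [eval₂_add, eval₂_pow, eval₂_X, eval₂_one] at h2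
    have h3 : (ω - j) * (ω + j) = 0 := by linear_combination h2 - hj
    have h4 : (2 : 𝓞 L) ≠ 0 := two_ne_zero
    rcases mul_eq_zero.1 h3 with h5 | h5
    · have h6 : ω = j := by linear_combination h5
      rw [h6, hgj] at h1
      have : 2 * j = 0 := by linear_combination (-1) * h1
      exact (mul_ne_zero h4 hj0) this
    · have h6 : ω = -j := by linear_combination h5
      rw [h6, smul_neg, hgj] at h1
      have : 2 * j = 0 := by linear_combination h1
      exact (mul_ne_zero h4 hj0) this⟩ bad hbad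
  rw [← RR_eq] at hev
  set S := ∑' p : Nat.Primes, Set.indicator (RR k bad) (fun m : ℕ => 1 / (m : ℝ)) (p : ℕ) with hS
  have hb : ∀ᶠ s in 𝓝[>] (1 : ℝ), δ * Real.log (1 / (s - 1)) - C₀ ≤ S := by
    filter_upwards [hev, self_mem_nhdsWithin] with s hs1 hs2
    have hs3 : (1 : ℝ) < s := hs2
    refine hs1.trans ?_
    have hle : ∀ p : Nat.Primes, Set.indicator (RR k bad) (fun m : ℕ => (m : ℝ) ^ (-s)) (p : ℕ) ≤
        Set.indicator (RR k bad) (fun m : ℕ => 1 / (m : ℝ)) (p : ℕ) := by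
      intro p
      refine Set.indicator_le_indicator ?_
      have hp1 : (1 : ℝ) ≤ (p : ℕ) := by exact_mod_cast p.2.one_le
      rw [one_div, ← Real.rpow_neg_one]
      exact Real.rpow_le_rpow_of_exponent_le hp1 (by linarith)
    have hind : Summable fun p : Nat.Primes =>
        Set.indicator (RR k bad) (fun m : ℕ => (m : ℝ) ^ (-s)) (p : ℕ) :=
      Summable.of_nonneg_of_le (fun p => Set.indicator_nonneg (fun m _ => by positivity) _) hle hsum
    exact hind.tsum_le_tsum hle hsum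
  have hlim : Tendsto (fun s : ℝ => δ * Real.log (1 / (s - 1)) - C₀) (𝓝[>] 1) atTop := by
    refine tendsto_atTop_add_const_right _ _ (Tendsto.const_mul_atTop hδ ?_)
    refine Real.tendsto_log_atTop.comp ?_
    simp only [one_div]
    refine tendsto_inv_nhdsGT_zero.comp ?_
    refine tendsto_nhdsWithin_iff.2 ⟨?_, ?_⟩
    · have : Tendsto (fun s : ℝ => s - 1) (𝓝 1) (𝓝 (1 - 1)) := by
        exact (continuous_id.sub continuous_const).tendsto 1
      rw [sub_self] at this
      exact this.mono_left nhdsWithin_le_nhds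
    · filter_upwards [self_mem_nhdsWithin] with s hs
      exact sub_pos.2 (Set.mem_Ioi.1 hs)
  obtain ⟨s, h1, h2⟩ := (hb.and (hlim.eventually_gt_atTop S)).exists
  linarith

end frob

end

end Pool.Agent.Helper21.KT
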