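import Pool.Agent.Helper21.KT.Frob

/-!
# Residues of algebraic numbers at primes with Frobenius the complex conjugation (project KT)
-/

set_option autoImplicit false

open NumberField Polynomial Filter Topology IntermediateField

namespace Pool.Agent.Helper21.KT

open Pool.Agent.Helper70.Art Pool.Agent.H53SCD

noncomputable section

/-- A Galois field of algebraic numbers with the complex conjugation. -/
theorem exists_setup (S : Finset ℂ) (hS : ∀ z ∈ S, IsIntegral ℤ z) :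
    ∃ (k L : Type) (_ : Field k) (_ : NumberField k) (_ : Field L) (_ : NumberField L)
      (_ : Algebra k L) (_ : IsGalois k L) (g : L ≃ₐ[k] L) (e : L →+* ℂ),
      (∀ z : L, e (g z) = (starRingEnd ℂ) (e z)) ∧
      (∀ z : L, g z = z → ∃ w : k, algebraMap k L w = z) ∧
      ∀ z ∈ S, ∃ w : 𝓞 L, e (w : L) = z := by
  classical
  let P : ℚ[X] := ∏ z ∈ S, minpoly ℚ z
  have hSQ : ∀ z ∈ S, IsIntegral ℚ z := fun z hz => (hS z hz).tower_top
  have hP0 : P ≠ 0 := Finset.prod_ne_zero_iff.2 fun z hz => minpoly.ne_zero (hSQ z hz)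
  let M : IntermediateField ℚ ℂ := adjoin ℚ (P.rootSet ℂ)
  have hspl : (P.map (algebraMap ℚ ℂ)).Splits := IsAlgClosed.splits _
  have hsf : P.IsSplittingField ℚ M := adjoin_rootSet_isSplittingField hspl
  have hfd : FiniteDimensional ℚ M := IsSplittingField.finiteDimensional M P
  have hn : Normal ℚ M := Normal.of_isSplittingField P
  have hnf : NumberField M := { to_charZero := inferInstance, to_finiteDimensional := hfd }
  have hgal : IsGalois ℚ M := ⟨⟩
  let c : M ≃ₐ[ℚ] M := (AlgEquiv.restrictScalars ℚ Complex.conjAe).restrictNormal M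
  have hc : ∀ z : M, ((c z : M) : ℂ) = (starRingEnd ℂ) (z : ℂ) := fun z =>
    AlgEquiv.restrictNormal_commutes (AlgEquiv.restrictScalars ℚ Complex.conjAe) M z
  let k : IntermediateField ℚ M := fixedField (Subgroup.zpowers c)
  have hcomm : ∀ w : k, c (algebraMap k M w) = algebraMap k M w := fun w =>
    (mem_fixedField_iff _ _).1 w.2 c (Subgroup.mem_zpowers c)
  refine ⟨k, M, inferInstance, inferInstance, inferInstance, hnf, inferInstance, inferInstance,
    AlgEquiv.ofRingEquiv (f := c.toRingEquiv) hcomm, algebraMap M ℂ, fun z => hc z, ?_, ?_⟩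
  · intro z hz
    have h1 : c z = z := hz
    refine ⟨⟨z, (mem_fixedField_iff _ _).2 ?_⟩, rfl⟩
    intro f hf
    have h2 : Subgroup.zpowers c ≤ MulAction.stabilizer (M ≃ₐ[ℚ] M) z := by
      rw [Subgroup.zpowers_le]
      exact h1
    exact h2 hf
  · intro z hz
    have h1 : z ∈ M := by
      refine subset_adjoin ℚ _ ?_
      rw [mem_rootSet]
      refine ⟨hP0, ?_⟩
      rw [map_prod]
      exact Finset.prod_eq_zero hz (minpoly.aeval ℚ z)
    have h2 : IsIntegral ℤ (⟨z, h1⟩ : M) := by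
      rw [← isIntegral_algebraMap_iff (B := ℂ) (algebraMap M ℂ).injective]
      exact hS z hz
    exact ⟨⟨⟨z, h1⟩, h2⟩, rfl⟩

section setup

variable {k L : Type} [Field k] [NumberField k] [Field L] [NumberField L] [Algebra k L]
  (g : L ≃ₐ[k] L) (e : L →+* ℂ) (he : ∀ z : L, e (g z) = (starRingEnd ℂ) (e z))
  (hk : ∀ z : L, g z = z → ∃ w : k, algebraMap k L w = z)

/-- the embedding of the integers -/
def ee (e : L →+* ℂ) : 𝓞 L →+* ℂ := e.comp (algebraMap (𝓞 L) L)

theorem ee_inj (e : L →+* ℂ) : Function.Injective (ee e) :=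
  e.injective.comp (RingOfIntegers.coe_injective)

include he in
theorem ee_smul (z : 𝓞 L) : ee e (g • z) = (starRingEnd ℂ) (ee e z) := he z

include he in
theorem smul_smul_eq (z : 𝓞 L) : g • g • z = z := by
  apply ee_inj e
  rw [ee_smul g e he, ee_smul g e he, Complex.conj_conj]

include he in
theorem smul_real (z : 𝓞 L) (t : ℝ) (hz : ee e z = t) : g • z = z := by
  apply ee_inj e
  rw [ee_smul g e he, hz, Complex.conj_ofReal]

include he in
theorem smul_I (j : 𝓞 L) (hj : ee e j = Complex.I) : g • j = -j := by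
  apply ee_inj e
  rw [ee_smul g e he, map_neg, hj, Complex.conj_I]

theorem sq_I (j : 𝓞 L) (hj : ee e j = Complex.I) : j ^ 2 = -1 := by
  apply ee_inj e
  rw [map_pow, hj, Complex.I_sq, map_neg, map_one]

/-- The extension of a homomorphism to all algebraic integers. -/
theorem exists_Phi (e : L →+* ℂ) (p : ℕ) [Fact p.Prime] (Ψ : 𝓞 L →+* Fb p) :
    ∃ Φ : integralClosure ℤ ℂ →+* Fb p, ∀ (z : 𝓞 L) (h : IsIntegral ℤ (ee e z)),
      Φ ⟨ee e z, h⟩ = Ψ z := by
  let j : 𝓞 L →+* integralClosure ℤ ℂ := (ee e).codRestrict (integralClosure ℤ ℂ).toSubring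
    fun z => map_isIntegral_int e (RingOfIntegers.isIntegral_coe z)
  let _ : Algebra (𝓞 L) (integralClosure ℤ ℂ) := j.toAlgebra
  have hj : Function.Injective (algebraMap (𝓞 L) (integralClosure ℤ ℂ)) := by
    intro x y h
    exact ee_inj e (congrArg Subtype.val h)
  have h1 : FaithfulSMul (𝓞 L) (integralClosure ℤ ℂ) :=
    (faithfulSMul_iff_algebraMap_injective _ _).2 hj
  have h2 : Algebra.IsIntegral (𝓞 L) (integralClosure ℤ ℂ) :=
    ⟨fun x => (integralClosure.isIntegral x : IsIntegral ℤ x).tower_top⟩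
  obtain ⟨Φ, hΦ⟩ := exists_hom_ext (A := 𝓞 L) (B := integralClosure ℤ ℂ) Ψ
  exact ⟨Φ, fun z h => hΦ z⟩

/-- **The trick**: no root of unity except positive real numbers. -/
theorem trick (j : 𝓞 L) (hj : ee e j = Complex.I)
    (p : ℕ) [hp : Fact p.Prime] (ψ : 𝓞 k →+* ZMod p) (hψ : ∀ a : ZMod p, a ^ 2 + 1 ≠ 0)
    (he : ∀ z : L, e (g z) = (starRingEnd ℂ) (e z))
    (hk : ∀ z : L, g z = z → ∃ w : k, algebraMap k L w = z)
    (x y u v : 𝓞 L) (hu : ee e u = ((√‖ee e x‖ : ℝ) : ℂ)) (hv : ee e v = ((√‖ee e y‖ : ℝ) : ℂ))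
    (hx0 : extH L p ψ x ≠ 0) (hy0 : extH L p ψ y ≠ 0)
    (hu0 : extH L p ψ u ≠ 0) (hv0 : extH L p ψ v ≠ 0)
    (hz : extH L p ψ (g • x * y - g • y * x) = 0 → g • x * y - g • y * x = 0)
    (hxy : ∀ t : ℝ, 0 < t → ee e x ≠ t * ee e y) (s : ℕ) :
    extH L p ψ x ^ ((p - 1) / 2 * p ^ s) ≠ extH L p ψ y ^ ((p - 1) / 2 * p ^ s) := by
  intro heq
  have h4 := mod_four hψ
  have hch : CharP (Fb p) p := charP_of_injective_algebraMap (io_inj p) p
  have h2 : (2 : Fb p) ≠ 0 := by
    intro h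
    have h' : ((2 : ℕ) : Fb p) = 0 := by exact_mod_cast h
    rw [CharP.cast_eq_zero_iff (Fb p) p] at h'
    have := Nat.le_of_dvd (by norm_num) h'
    omega
  have hfrob := frob g hk (smul_smul_eq g e he) j (sq_I e j hj) (smul_I g e he j hj) p ψ hψ
  have hfix : ∀ (w : 𝓞 L) (t : ℝ), ee e w = t → extH L p ψ w ≠ 0 → extH L p ψ w ^ (p - 1) = 1 := by
    intro w t hw hw0
    have h1 := pow_fixed g hk p ψ w (smul_real g e he w t hw)
    apply mul_right_cancel₀ hw0
    rw [one_mul, ← pow_succ, Nat.sub_add_cancel hp.out.one_le, h1]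
  set Φ := extH L p ψ with hΦ
  set h := (p - 1) / 2 with hh
  have hp1 : p - 1 = 2 * h := by omega
  have hodd : Odd h := ⟨(p - 3) / 4, by omega⟩
  have h5 : Φ x ^ h = Φ y ^ h := by
    rw [pow_mul, pow_mul] at heq
    have h6 : (Φ x ^ h - Φ y ^ h) ^ p ^ s = 0 := by
      rw [sub_pow_char_pow, heq, sub_self]
    exact sub_eq_zero.1 (pow_eq_zero_iff (pow_ne_zero _ hp.out.ne_zero) |>.1 h6)
  have h7 : Φ x ^ (p - 1) = Φ y ^ (p - 1) := by
    rw [hp1, mul_comm, pow_mul, pow_mul, h5]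
  have hpw : ∀ w : Fb p, w ^ p = w ^ (p - 1) * w := fun w => by
    rw [← pow_succ, Nat.sub_add_cancel hp.out.one_le]
  have h8 : g • x * y - g • y * x = 0 := by
    apply hz
    rw [map_sub, map_mul, map_mul, hfrob, hfrob, hpw, hpw, h7]
    ring
  set a := ee e x with ha
  set b := ee e y with hb
  have hx0' : a ≠ 0 := by
    intro h'
    apply hx0
    have : x = 0 := ee_inj e (by rw [← ha, h', map_zero])
    rw [this, map_zero]
  have hy0' : b ≠ 0 := by
    intro h'
    apply hy0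
    have : y = 0 := ee_inj e (by rw [← hb, h', map_zero])
    rw [this, map_zero]
  have h9 : (starRingEnd ℂ) a * b = (starRingEnd ℂ) b * a := by
    have h10 := congrArg (ee e) h8
    rw [map_sub, map_mul, map_mul, ee_smul g e he, ee_smul g e he, map_zero, sub_eq_zero] at h10
    exact h10
  have h11 : (starRingEnd ℂ) (a / b) = a / b := by
    have hb' : (starRingEnd ℂ) b ≠ 0 := (_root_.map_ne_zero _).2 hy0'
    rw [map_div₀, div_eq_div_iff hb' hy0', h9]
    ring
  obtain ⟨t, ht⟩ := Complex.conj_eq_iff_real.1 h11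
  have h12 : a = t * b := by rw [← ht, div_mul_cancel₀ _ hy0']
  have ht0 : t < 0 := by
    rcases lt_trichotomy t 0 with h' | h' | h'
    · exact h'
    · exact absurd (by rw [h12, h']; simp) hx0'
    · exact absurd h12 (hxy t h')
  have h13 : x * v ^ 2 = -(y * u ^ 2) := by
    apply ee_inj e
    rw [map_mul, map_pow, map_neg, map_mul, map_pow, hu, hv, ← ha, ← hb,
      ← Complex.ofReal_pow, ← Complex.ofReal_pow, Real.sq_sqrt (norm_nonneg _),
      Real.sq_sqrt (norm_nonneg _)]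
    have h14 : ‖a‖ = -t * ‖b‖ := by
      rw [h12, norm_mul, Complex.norm_real, Real.norm_eq_abs, abs_of_neg ht0]
    rw [h14, h12]
    push_cast
    ring
  have h15 : Φ (x * v ^ 2) ^ h = Φ (-(y * u ^ 2)) ^ h := by rw [h13]
  rw [map_mul, map_pow, map_neg, map_mul, map_pow, mul_pow, ← pow_mul, hodd.neg_pow, mul_pow,
    ← pow_mul, ← hp1, hfix v _ hv hv0, hfix u _ hu hu0, mul_one, mul_one, ← h5] at h15
  have h16 : 2 * Φ x ^ h = 0 := by linear_combination h15
  exact mul_ne_zero h2 (pow_ne_zero _ hx0) h16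

end setup

/-- **Primes**: at the primes of a set with divergent sum of reciprocals no quotient of two of
the numbers, unless it is positive real, becomes a root of unity of order dividing half of
`r - 1`. -/
theorem exists_primes {ι : Type} [Finite ι] (a : ι → ℂ) (ha : ∀ i, IsIntegral ℤ (a i))
    (ha0 : ∀ i, a i ≠ 0) (q : ℕ) (hq : q ≠ 0) (B : ℕ) :
    ∃ R : Set ℕ, (∀ r ∈ R, r.Prime) ∧ ¬ Summable (fun r : R => (1 : ℝ) / (r : ℕ)) ∧
      ∀ r ∈ R, B < r ∧ Odd ((r - 1) / 2) ∧ (q : ZMod r) ^ ((r - 1) / 2) = 1 ∧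
        ∀ [Fact r.Prime], ∃ Φ : integralClosure ℤ ℂ →+* AlgebraicClosure (ZMod r),
          (∀ i, Φ ⟨a i, ha i⟩ ≠ 0) ∧
          ∀ i j : ι, (∀ t : ℝ, 0 < t → a i ≠ t * a j) → ∀ s,
            Φ ⟨a i, ha i⟩ ^ ((r - 1) / 2 * r ^ s) ≠ Φ ⟨a j, ha j⟩ ^ ((r - 1) / 2 * r ^ s) := by
  classical
  have := Fintype.ofFinite ι
  have hsqrt : ∀ t : ℝ, 0 ≤ t → IsIntegral ℤ (t : ℂ) → IsIntegral ℤ ((√t : ℝ) : ℂ) := by
    intro t ht hi
    refine IsIntegral.of_pow (n := 2) (by norm_num) ?_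
    rw [← Complex.ofReal_pow, Real.sq_sqrt ht]
    exact hi
  have hnorm : ∀ i, IsIntegral ℤ ((‖a i‖ : ℝ) : ℂ) := by
    intro i
    refine IsIntegral.of_pow (n := 2) (by norm_num) ?_
    rw [← Complex.ofReal_pow, ← Complex.normSq_eq_norm_sq, ← Complex.mul_conj]
    exact (ha i).mul (map_isIntegral_int (starRingEnd ℂ) (ha i))
  let S : Finset ℂ := Finset.univ.image a ∪ Finset.univ.image (fun i => ((√‖a i‖ : ℝ) : ℂ)) ∪
    {Complex.I, ((√(q : ℝ) : ℝ) : ℂ)}
  obtain ⟨k, L, _, _, _, _, _, _, g, e, he, hk, hall⟩ := exists_setup S (by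
    intro z hz
    simp only [S, Finset.mem_union, Finset.mem_image, Finset.mem_univ, true_and,
      Finset.mem_insert, Finset.mem_singleton] at hz
    rcases hz with (⟨i, rfl⟩ | ⟨i, rfl⟩) | rfl | rfl
    · exact ha i
    · exact hsqrt _ (norm_nonneg _) (hnorm i)
    · refine IsIntegral.of_pow (n := 2) (by norm_num) ?_
      rw [Complex.I_sq]
      exact (isIntegral_one : IsIntegral ℤ (1 : ℂ)).neg
    · exact hsqrt _ (Nat.cast_nonneg _) (by
        rw [Complex.ofReal_natCast]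
        have h0 : IsIntegral ℤ (algebraMap ℤ ℂ (q : ℤ)) := isIntegral_algebraMap
        rwa [map_natCast] at h0))
  have hex : ∀ z ∈ S, ∃ w : 𝓞 L, ee e w = z := hall
  have h1 : ∀ i, ∃ w : 𝓞 L, ee e w = a i := fun i => hex _ (by
    simp only [S, Finset.mem_union, Finset.mem_image, Finset.mem_univ, true_and]
    exact Or.inl (Or.inl ⟨i, rfl⟩))
  have h2 : ∀ i, ∃ w : 𝓞 L, ee e w = ((√‖a i‖ : ℝ) : ℂ) := fun i => hex _ (by
    simp only [S, Finset.mem_union, Finset.mem_image, Finset.mem_univ, true_and]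
    exact Or.inl (Or.inr ⟨i, rfl⟩))
  obtain ⟨j, hj⟩ : ∃ w : 𝓞 L, ee e w = Complex.I := hex _ (by
    simp only [S, Finset.mem_union, Finset.mem_insert]
    exact Or.inr (Or.inl trivial))
  obtain ⟨σ, hσ⟩ : ∃ w : 𝓞 L, ee e w = ((√(q : ℝ) : ℝ) : ℂ) := hex _ (by
    simp only [S, Finset.mem_union, Finset.mem_insert, Finset.mem_singleton]
    exact Or.inr (Or.inr trivial))
  choose α hα using h1
  choose β hβ using h2
  have hα0 : ∀ i, α i ≠ 0 := by
    intro i h
    apply ha0 i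
    rw [← hα i, h, map_zero]
  have hβ0 : ∀ i, β i ≠ 0 := by
    intro i h
    have h3 := hβ i
    rw [h, map_zero] at h3
    have h4 : √‖a i‖ = 0 := by exact_mod_cast h3.symm
    rw [Real.sqrt_eq_zero (norm_nonneg _), norm_eq_zero] at h4
    exact ha0 i h4
  have hσ0 : σ ^ 2 = (q : 𝓞 L) := by
    apply ee_inj e
    rw [map_pow, hσ, map_natCast, ← Complex.ofReal_pow, Real.sq_sqrt (Nat.cast_nonneg _),
      Complex.ofReal_natCast]
  choose mα hmα0 hmα using fun i => exists_bad (α i) (hα0 i)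
  choose mβ hmβ0 hmβ using fun i => exists_bad (β i) (hβ0 i)
  have h3 : ∀ i l : ι, ∃ m : ℕ, m ≠ 0 ∧ ∀ p [Fact p.Prime], ¬ p ∣ m → ∀ Ψ : 𝓞 L →+* Fb p,
      Ψ (g • α i * α l - g • α l * α i) = 0 → g • α i * α l - g • α l * α i = 0 := by
    intro i l
    by_cases h : g • α i * α l - g • α l * α i = 0
    · exact ⟨1, one_ne_zero, fun _ _ _ _ _ => h⟩
    · obtain ⟨m, hm0, hm⟩ := exists_bad _ h
      exact ⟨m, hm0, fun p _ hp Ψ hΨ => absurd hΨ (hm p hp Ψ)⟩
  choose mz hmz0 hmz using h3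
  set bad : ℕ := B.factorial * q * (∏ i, mα i) * (∏ i, mβ i) * ∏ i, ∏ l, mz i l with hbad
  have hbad0 : bad ≠ 0 := by
    rw [hbad]
    refine mul_ne_zero (mul_ne_zero (mul_ne_zero (mul_ne_zero (Nat.factorial_ne_zero B) hq) ?_) ?_) ?_
    · exact Finset.prod_ne_zero_iff.2 fun i _ => hmα0 i
    · exact Finset.prod_ne_zero_iff.2 fun i _ => hmβ0 i
    · exact Finset.prod_ne_zero_iff.2 fun i _ => Finset.prod_ne_zero_iff.2 fun l _ => hmz0 i l
  have hns := not_summable (k := k) g j (sq_I e j hj) (smul_I g e he j hj) bad hbad0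
  refine ⟨RR k bad, fun r hr => hr.1, ?_, ?_⟩
  · intro hsum
    apply hns
    have h4 : Summable (Set.indicator (RR k bad) fun m : ℕ => 1 / (m : ℝ)) :=
      summable_subtype_iff_indicator.1 hsum
    exact h4.comp_injective (i := fun p : Nat.Primes => (p : ℕ)) Subtype.val_injective
  · rintro r ⟨hr, hrb, ψ, hψ⟩
    have hrf : Fact r.Prime := ⟨hr⟩
    have h4 := mod_four hψ
    have hch : CharP (Fb r) r := charP_of_injective_algebraMap (io_inj r) r
    have hrz : ¬ r ∣ ∏ i, ∏ l, mz i l := fun h => hrb (h.mul_left _)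
    have hr3 : ¬ r ∣ B.factorial * q * (∏ i, mα i) * (∏ i, mβ i) := fun h => hrb (h.mul_right _)
    have hrβ : ¬ r ∣ ∏ i, mβ i := fun h => hr3 (h.mul_left _)
    have hr2 : ¬ r ∣ B.factorial * q * (∏ i, mα i) := fun h => hr3 (h.mul_right _)
    have hrα : ¬ r ∣ ∏ i, mα i := fun h => hr2 (h.mul_left _)
    have hr1 : ¬ r ∣ B.factorial * q := fun h => hr2 (h.mul_right _)
    have hrq : ¬ r ∣ q := fun h => hr1 (h.mul_left _)
    have hrB : ¬ r ∣ B.factorial := fun h => hr1 (h.mul_right _)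
    have hrz' : ∀ i l, ¬ r ∣ mz i l := fun i l h => hrz
      (h.trans ((Finset.dvd_prod_of_mem (mz i) (Finset.mem_univ l)).trans
        (Finset.dvd_prod_of_mem (fun i => ∏ l, mz i l) (Finset.mem_univ i))))
    have hrα' : ∀ i, ¬ r ∣ mα i := fun i h => hrα (h.trans (Finset.dvd_prod_of_mem _ (Finset.mem_univ i)))
    have hrβ' : ∀ i, ¬ r ∣ mβ i := fun i h => hrβ (h.trans (Finset.dvd_prod_of_mem _ (Finset.mem_univ i)))
    refine ⟨?_, ⟨(r - 3) / 4, by omega⟩, ?_, ?_⟩
    · by_contra h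
      exact hrB ((Nat.Prime.dvd_factorial hr).2 (not_lt.1 h))
    · apply io_inj r
      have h5 : extH L r ψ σ ^ 2 = (q : Fb r) := by rw [← map_pow, hσ0, map_natCast]
      have h6 : extH L r ψ σ ≠ 0 := by
        intro h
        rw [h, zero_pow two_ne_zero] at h5
        exact hrq ((CharP.cast_eq_zero_iff (Fb r) r q).1 h5.symm)
      have h7 := pow_fixed g hk r ψ σ (smul_real g e he σ _ hσ)
      have h8 : extH L r ψ σ ^ (r - 1) = 1 := by
        apply mul_right_cancel₀ h6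
        rw [one_mul, ← pow_succ, Nat.sub_add_cancel hr.one_le, h7]
      rw [map_pow, map_natCast, map_one, ← h5, ← pow_mul]
      rw [show 2 * ((r - 1) / 2) = r - 1 by omega, h8]
    · intro _
      obtain ⟨Φ, hΦ⟩ := exists_Phi e r (extH L r ψ)
      have hΦα : ∀ i, Φ ⟨a i, ha i⟩ = extH L r ψ (α i) := by
        intro i
        have h5 : IsIntegral ℤ (ee e (α i)) := by rw [hα i]; exact ha i
        rw [← hΦ (α i) h5]
        congr 1
        exact Subtype.ext (hα i).symm
      refine ⟨Φ, fun i => ?_, fun i l hil s => ?_⟩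
      · rw [hΦα]
        exact hmα i r (hrα' i) _
      · rw [hΦα, hΦα]
        refine trick g e j hj r ψ hψ he hk (α i) (α l) (β i) (β l) (by rw [hβ, hα]) (by rw [hβ, hα])
          (hmα i r (hrα' i) _) (hmα l r (hrα' l) _) (hmβ i r (hrβ' i) _) (hmβ l r (hrβ' l) _)
          (hmz i l r (hrz' i l) _) ?_ s
        rw [hα, hα]
        exact hil

end

end Pool.Agent.Helper21.KT
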