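import Pool.Agent.Helper73.KT.Ops

/-!
Eigenvectors in a box for triangular matrices (project K'', piece of block B7b).
-/

set_option autoImplicit false

open Matrix H77MT Pool.Agent.Helper79.KN Pool.Agent.Helper33.KN Pool.Agent.Helper73.KT

namespace Pool.Agent.Helper21.KT

variable {K ι : Type} [Field K] [Fintype ι] [DecidableEq ι] {N : ℕ}

/-- The box: initial segments for the true factors, final segments for the false ones. -/
def Box (b : ι → Bool) (μ : ι → ℕ) (s : ι → Fin N) : Prop :=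
  ∀ a, (b a = true → (s a).val < μ a) ∧ (b a = false → N - μ a ≤ (s a).val)

/-- The tensors with support in the box. -/
def boxSub (K : Type) [Field K] {N : ℕ} (b : ι → Bool) (μ : ι → ℕ) : Submodule K ((ι → Fin N) → K) where
  carrier := {M | ∀ s, M s ≠ 0 → Box b μ s}
  add_mem' := by
    intro M M' hM hM' s hs
    by_cases h : M s = 0
    · refine hM' s ?_
      rw [Pi.add_apply, h, zero_add] at hs
      exact hs
    · exact hM s h
  zero_mem' := fun s hs => absurd rfl hs
  smul_mem' := by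
    intro z M hM s hs
    refine hM s fun h => hs ?_
    rw [Pi.smul_apply, h, smul_zero]

/-- The triangular shape. -/
def Tri (b : ι → Bool) (A : ι → Matrix (Fin N) (Fin N) K) : Prop :=
  ∀ a s t, (if b a then t < s else s < t) → A a s t = 0

theorem ten_box {b : ι → Bool} {μ : ι → ℕ} {A : ι → Matrix (Fin N) (Fin N) K} (hA : Tri b A)
    {M : (ι → Fin N) → K} (hM : M ∈ boxSub K b μ) : ten A M ∈ boxSub K b μ := by
  intro s hs
  obtain ⟨t, -, ht⟩ := Finset.exists_ne_zero_of_sum_ne_zero hs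
  have h1 : M t ≠ 0 := right_ne_zero_of_mul ht
  have h2 : ∀ a, A a (s a) (t a) ≠ 0 := fun a => Finset.prod_ne_zero_iff.1 (left_ne_zero_of_mul ht) a (Finset.mem_univ a)
  have h3 := hM t h1
  intro a
  refine ⟨fun hb => ?_, fun hb => ?_⟩
  · have h4 : ¬ t a < s a := fun h => h2 a (hA a _ _ (by rw [hb]; exact h))
    have h5 : (s a).val ≤ (t a).val := not_lt.1 h4
    exact lt_of_le_of_lt h5 ((h3 a).1 hb)
  · have h4 : ¬ s a < t a := fun h => h2 a (hA a _ _ (by rw [hb]; exact h))
    have h5 : (t a).val ≤ (s a).val := not_lt.1 h4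
    exact le_trans ((h3 a).2 hb) h5

/-- An eigenvalue on the box is a product of diagonal entries. -/
theorem eig_box {b : ι → Bool} {μ : ι → ℕ} {A : ι → Matrix (Fin N) (Fin N) K} (hA : Tri b A)
    {M : (ι → Fin N) → K} (hM : M ∈ boxSub K b μ) (hM0 : M ≠ 0) {z : K} (hz : ten A M = z • M) :
    ∃ s, Box b μ s ∧ z = ∏ a, A a (s a) (s a) := by
  classical
  -- the height
  let f : (ι → Fin N) → ℤ := fun s => ∑ a, if b a then ((s a).val : ℤ) else -((s a).val : ℤ)
  obtain ⟨s₀, hs₀⟩ := Function.ne_iff.1 hM0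
  obtain ⟨s, hs, hmax⟩ := (Finset.univ.filter fun s : ι → Fin N => M s ≠ 0).exists_max_image f
    ⟨s₀, Finset.mem_filter.2 ⟨Finset.mem_univ _, hs₀⟩⟩
  have hs0 : M s ≠ 0 := (Finset.mem_filter.1 hs).2
  refine ⟨s, hM s hs0, ?_⟩
  have h1 := congrFun hz s
  rw [Pi.smul_apply, smul_eq_mul] at h1
  have h2 : ten A M s = (∏ a, A a (s a) (s a)) * M s := by
    change ∑ t : ι → Fin N, (∏ a, A a (s a) (t a)) * M t = _
    refine Finset.sum_eq_single s ?_ fun h => absurd (Finset.mem_univ s) h
    intro t _ hts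
    by_contra h3
    have h4 : M t ≠ 0 := right_ne_zero_of_mul h3
    have h5 : ∀ a, A a (s a) (t a) ≠ 0 := fun a =>
      Finset.prod_ne_zero_iff.1 (left_ne_zero_of_mul h3) a (Finset.mem_univ a)
    have h6 := hmax t (Finset.mem_filter.2 ⟨Finset.mem_univ _, h4⟩)
    have h7 : ∀ a, (if b a then ((s a).val : ℤ) else -((s a).val : ℤ)) ≤
        (if b a then ((t a).val : ℤ) else -((t a).val : ℤ)) := by
      intro a
      by_cases hb : b a = true
      · rw [if_pos hb, if_pos hb]
        have h8 : ¬ t a < s a := fun h => h5 a (hA a _ _ (by rw [hb]; exact h))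
        have h9 : (s a).val ≤ (t a).val := not_lt.1 h8
        exact_mod_cast h9
      · rw [if_neg hb, if_neg hb]
        have hb' : b a = false := Bool.eq_false_iff.2 hb
        have h8 : ¬ s a < t a := fun h => h5 a (hA a _ _ (by rw [hb']; exact h))
        have h9 : (t a).val ≤ (s a).val := not_lt.1 h8
        have h10 : ((t a).val : ℤ) ≤ (s a).val := by exact_mod_cast h9
        linarith
    have h8 : f s = f t := le_antisymm (Finset.sum_le_sum fun a _ => h7 a) h6
    have h9 := (Finset.sum_eq_sum_iff_of_le fun a _ => h7 a).1 h8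
    apply hts
    funext a
    have h10 := h9 a (Finset.mem_univ a)
    by_cases hb : b a = true
    · rw [if_pos hb, if_pos hb] at h10
      exact Fin.ext (by exact_mod_cast h10.symm)
    · rw [if_neg hb, if_neg hb] at h10
      exact Fin.ext (by
        have : ((t a).val : ℤ) = (s a).val := by linarith
        exact_mod_cast this)
  rw [h2] at h1
  exact (mul_right_cancel₀ hs0 h1).symm

/-- **An eigenvector with unit eigenvalue.** -/
theorem exists_eig_box [IsAlgClosed K] (O : ValuationSubring K) {b : ι → Bool} {μ : ι → ℕ}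
    {A : ι → Matrix (Fin N) (Fin N) K} (hA : Tri b A)
    (hdiag : ∀ a (s : Fin N), (b a = true → s.val < μ a) → (b a = false → N - μ a ≤ s.val) →
      O.valuation (A a s s) = 1)
    {R : Submodule K ((ι → Fin N) → K)} (hst : ∀ M ∈ R, ten A M ∈ R) {M : (ι → Fin N) → K}
    (hM : M ∈ R) (hM0 : M ≠ 0) (hMb : ∀ s, M s ≠ 0 → Box b μ s) :
    ∃ M' ∈ R, M' ≠ 0 ∧ ∃ z : K, O.valuation z = 1 ∧ ten A M' = z • M' := by
  let Q : Submodule K ((ι → Fin N) → K) := R ⊓ boxSub K b μ
  have hQ : ∀ M ∈ Q, tenL A M ∈ Q := fun M h => ⟨hst M h.1, ten_box hA h.2⟩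
  have : Nontrivial Q := ⟨⟨M, hM, hMb⟩, 0, fun h => hM0 (congrArg Subtype.val h)⟩
  obtain ⟨z, hz⟩ := Module.End.exists_eigenvalue ((tenL A).restrict hQ)
  obtain ⟨v, hv⟩ := hz.exists_hasEigenvector
  have hv0 : (v : (ι → Fin N) → K) ≠ 0 := fun h => hv.2 (Subtype.ext h)
  have hvz : ten A (v : (ι → Fin N) → K) = z • (v : (ι → Fin N) → K) :=
    congrArg Subtype.val hv.apply_eq_smul
  refine ⟨v, v.2.1, hv0, z, ?_, hvz⟩
  obtain ⟨s, hs, rfl⟩ := eig_box hA v.2.2 hv0 hvz
  rw [map_prod]
  exact Finset.prod_eq_one fun a _ => hdiag a (s a) (hs a).1 (hs a).2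

end Pool.Agent.Helper21.KT
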